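import Pool.Agent.N972.P17.Glue
import Pool.Agent.N972.P17.Fin
import Pool.Agent.N916.MO.Dn
import Pool.Agent.N875.P17.Crit
import Pool.Agent.N816.P17.Crit

/-!
The assembly of the results file for the negative quadratic twists of `X_0(17)`: the descent and its
converse for the four classes together.
-/

set_option autoImplicit false

open Finset

namespace Pool.Agent.N809.P17

open Pool.Agent.N972.P17 (Fam Crit mD S_PAR S_PARE S_PARR S_PARRE S_SxSc f_DIAG f_DIAGE f_DIAGR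
  f_DIAGRE Cm Cme Cr Cre fam_cases not_dvd_of_jac ev_mod)
open Pool.Agent.N875.P17 (WS desc_Cm desc_Cme desc_Cr desc_Cre crit_Cm crit_Cme crit_Cr crit_Cre)
open Pool.Agent.N875.X15 (Fin2)
open Pool.Agent.Y687 (RankBSD)

theorem desc_all {n : ℕ} (hn : Fam n) (hC : Crit n) :
    Fin2 (WS (mD n)) ∧ Pool.Agent.N975.S17.FinPts (mD n) := by
  rcases fam_cases hn with h1 | h1 | h1 | h1
  · have e : mD n = -(n : ℤ) := if_pos (by have := h1.2.1; omega)
    rw [e]
    exact desc_Cm h1 (hC.1 (not_dvd_of_jac h1.2.2))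
  · have e : mD n = -((n / 4 : ℕ) : ℤ) := if_neg (by have := ev_mod h1.1; omega)
    rw [e]
    exact desc_Cme h1 (hC.1 (not_dvd_of_jac h1.2))
  · have e : mD n = -(n : ℤ) := if_pos (by have := h1.2.1; omega)
    rw [e]
    exact desc_Cr h1 (hC.2 h1.2.2)
  · have e : mD n = -((n / 4 : ℕ) : ℤ) := if_neg (by have := ev_mod h1.1; omega)
    rw [e]
    exact desc_Cre h1 (hC.2 h1.2)

/-- the converse of the descent -/
theorem conv_all {n : ℕ} (hn : Fam n) (h : Fin2 (WS (mD n))) : Crit n := by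
  rcases fam_cases hn with h1 | h1 | h1 | h1
  · have e : mD n = -(n : ℤ) := if_pos (by have := h1.2.1; omega)
    rw [e] at h
    exact ⟨fun _ => (crit_Cm h1).1 h, fun h2 => absurd h2 (not_dvd_of_jac h1.2.2)⟩
  · have e : mD n = -((n / 4 : ℕ) : ℤ) := if_neg (by have := ev_mod h1.1; omega)
    rw [e] at h
    exact ⟨fun _ => (crit_Cme h1).1 h, fun h2 => absurd h2 (not_dvd_of_jac h1.2)⟩
  · have e : mD n = -(n : ℤ) := if_pos (by have := h1.2.1; omega)
    rw [e] at h
    exact ⟨fun h2 => absurd h1.2.2 h2, fun _ => (crit_Cr h1).1 h⟩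
  · have e : mD n = -((n / 4 : ℕ) : ℤ) := if_neg (by have := ev_mod h1.1; omega)
    rw [e] at h
    exact ⟨fun h2 => absurd h1.2 h2, fun _ => (crit_Cre h1).1 h⟩

/-- the rank and the `2`-part of `Ш` from the criterion -/
theorem crit_neg {n : ℕ} (hn : Fam n) : Fin2 (WS (mD n)) ↔ Crit n :=
  ⟨conv_all hn, fun h => (desc_all hn h).1⟩

theorem bsd_neg (hP : S_PAR) (hPE : S_PARE) (hPR : S_PARR) (hPRE : S_PARRE) {n : ℕ} (hn : Fam n)
    (hC : Crit n) : RankBSD (-91 * (mD n) ^ 2) (-330 * (mD n) ^ 3) :=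
  Pool.Agent.N972.P17.bsd_all f_DIAG f_DIAGE f_DIAGR f_DIAGRE hP hPE hPR hPRE
    Pool.Agent.N816.P17.Crit.t_SxSc hn hC (desc_all hn hC).2

end Pool.Agent.N809.P17
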