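import Pool.Agent.N809.P17.Pty
import Pool.Agent.N809.P17.Res
import Pool.Agent.N972.P17.Par
import Pool.Agent.N855.P17.Fin
import Pool.Agent.N916.MO.Hg
import Pool.Agent.N218.P17G.Bsd

/-!
# All quadratic twists of the curve of conductor `17`: both signs, no condition at `17`
-/

set_option autoImplicit false

open Finset

namespace Pool.Agent.N809.P17

open Pool.Agent.N972.P17 (Fam Crit mD Cm Cme Cr Cre Cp Cpe Sx Sr)
open Pool.Agent.N969.P17G (CpE SxP)
open Pool.Agent.N875.P17 (WS Sg fin2S_iff crit_Cp crit_CpE)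
open Pool.Agent.N875.X15 (Fin2)
open Pool.Agent.N916.TE (FD)
open Pool.Agent.N916.MO (Kn G17 C17)
open Pool.Agent.N919.BS (Rt17 js17)
open Pool.Agent.Y687 (RankBSD)

theorem Kn_odd {d : ℤ} (h : d % 4 = 1) : Kn d = d.natAbs := if_pos h

theorem Kn_even {d : ℤ} (h : ¬ d % 4 = 1) : Kn d = 4 * d.natAbs := if_neg h

theorem sq_mod {d : ℤ} (hs : Squarefree d) : ¬ d % 4 = 0 := by
  intro h
  have h1 := hs 2 (by omega)
  rw [Int.isUnit_iff] at h1
  omega

/-- `17` and the symbol of the discriminant -/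
theorem jac_Kn (d : ℤ) : jacobiSym (Kn d) 17 = jacobiSym d 17 := by
  have h1 : jacobiSym (d.natAbs : ℤ) 17 = jacobiSym d 17 := by
    rcases Int.natAbs_eq d with h | h
    · rw [← h]
    · have h2 : jacobiSym d 17 = jacobiSym (-(d.natAbs : ℤ)) 17 := by rw [← h]
      rw [h2]
      exact js17 (by rw [add_neg_cancel]; exact dvd_zero _)
  by_cases h : d % 4 = 1
  · rw [Kn_odd h, h1]
  · rw [Kn_even h]
    have h2 : jacobiSym ((4 * d.natAbs : ℕ) : ℤ) 17 = jacobiSym 4 17 * jacobiSym (d.natAbs : ℤ) 17 := by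
      rw [← jacobiSym.mul_left]
      push_cast
      rfl
    have h3 : jacobiSym 4 17 = 1 := by norm_num
    rw [h2, h3, one_mul, h1]

/-- negative squarefree integers -/
theorem neg_Fam {d : ℤ} (hs : Squarefree d) (h0 : d < 0) (h17 : jacobiSym d 17 ≠ 1) :
    Fam (Kn d) ∧ mD (Kn d) = d := by
  have h4 := sq_mod hs
  have hsn : Squarefree d.natAbs := Int.squarefree_natAbs.2 hs
  refine ⟨⟨?_, by rw [jac_Kn]; exact h17⟩, ?_⟩
  · by_cases h : d % 4 = 1
    · left
      rw [Kn_odd h]
      exact ⟨hsn, by omega⟩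
    · right
      rw [Kn_even h]
      exact ⟨d.natAbs, rfl, hsn, by omega⟩
  · by_cases h : d % 4 = 1
    · unfold mD
      rw [Kn_odd h, if_pos (by omega)]
      omega
    · unfold mD
      rw [Kn_even h, if_neg (by omega)]
      omega

/-- **the criterion for all squarefree integers** -/
theorem fin2_all {d : ℤ} (hs : Squarefree d) : Fin2 (WS d) ↔ Rt17 d ∧ G17 d := by
  have hm0 := hs.ne_zero
  -- the equivalence for the root number `+ 1`
  have key : Rt17 d → (Fin2 (WS d) ↔ G17 d) := by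
    rintro (⟨h0, h17⟩ | ⟨h0, h17⟩)
    · have hG : G17 d ↔ SxP (Kn d) := ⟨fun h => h.2 h0, fun h => ⟨fun h1 => by omega, fun _ => h⟩⟩
      have hsn : Squarefree d.natAbs := Int.squarefree_natAbs.2 hs
      have hja : jacobiSym (d.natAbs : ℤ) 17 = 1 := by
        have : (d.natAbs : ℤ) = d := by omega
        rw [this]
        exact h17
      rw [hG]
      by_cases h : d % 4 = 1
      · have hC : Cp (Kn d) := by
          rw [Kn_odd h]
          exact ⟨hsn, by omega, hja⟩
        have h1 := crit_Cp hC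
        have e : ((Kn d : ℕ) : ℤ) = d := by rw [Kn_odd h]; omega
        rw [e] at h1
        rw [h1]
        exact (Pool.Agent.N855.P17.t_SxP _ hC).symm
      · have h4 := sq_mod hs
        have hC : CpE (Kn d) := ⟨d.natAbs, Kn_even h, hsn, by omega, hja⟩
        have h1 := crit_CpE hC
        have e : ((Kn d / 4 : ℕ) : ℤ) = d := by rw [Kn_even h]; omega
        rw [e] at h1
        exact h1
    · have hG : G17 d ↔ C17 (Kn d) := ⟨fun h => h.1 h0, fun h => ⟨fun _ => h, fun h1 => by omega⟩⟩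
      obtain ⟨hF, e⟩ := neg_Fam hs h0 h17
      have h1 := crit_neg hF
      rw [e] at h1
      rw [hG]
      exact h1
  constructor
  · intro h
    have h1 : Rt17 d := by
      rcases sg_parity hs ((fin2S_iff hs).1 h) with h2 | h2
      · exact Or.inr h2
      · exact Or.inl h2
    exact ⟨h1, (key h1).1 h⟩
  · rintro ⟨h1, h2⟩
    exact (key h1).2 h2

/-- **the rank form for all squarefree integers** -/
theorem bsd_all {d : ℤ} (hs : Squarefree d) (h : Fin2 (WS d)) :
    RankBSD (-91 * d ^ 2) (-330 * d ^ 3) := by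
  have hS := (fin2S_iff hs).1 h
  rcases sg_parity hs hS with ⟨h0, h17⟩ | ⟨h0, h17⟩
  · obtain ⟨hF, e⟩ := neg_Fam hs h0 h17
    have hC : Crit (Kn d) := (crit_neg hF).1 (by rw [e]; exact h)
    have h1 := Pool.Agent.N972.P17.bsd_neg hF hC (desc_all hF hC).2
    rwa [e] at h1
  · exact Pool.Agent.N218.P17G.bsd_pos hs h0 h17 hS

end Pool.Agent.N809.P17
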