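import Pool.Agent.N875.P17.Crit

/-!
# The 2-parity of the twists of the curve of conductor `17`: the criterion `Sg m` fails if the root
# number is `-1`
-/

set_option autoImplicit false

open Finset

namespace Pool.Agent.N809.P17

section lin

variable {κ : Type} [Fintype κ] [DecidableEq κ]

/-- alternating matrices of odd size over the field with two elements are singular -/
theorem det_alt (M : Matrix κ κ (ZMod 2)) (hs : ∀ i j, M i j = M j i) (hd : ∀ i, M i i = 0)
    (ho : ¬ 2 ∣ Fintype.card κ) : M.det = 0 := by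
  rw [Matrix.det_apply]
  refine Finset.sum_involution (fun σ _ => σ⁻¹) ?_ ?_ (fun _ _ => mem_univ _) ?_
  · intro σ _
    have h1 : ∏ i, M (σ⁻¹ i) i = ∏ i, M (σ i) i := by
      rw [← Equiv.prod_comp σ]
      refine prod_congr rfl fun i _ => ?_
      rw [show σ⁻¹ (σ i) = i from σ.symm_apply_apply i, hs]
    have h2 : Equiv.Perm.sign σ⁻¹ = Equiv.Perm.sign σ := Equiv.Perm.sign_inv σ
    rw [h1, h2]
    have : ∀ x : ZMod 2, x + x = 0 := by decide
    exact this _
  · intro σ _ h1 h2
    apply h1
    have h3 : σ ^ 2 ^ 1 = 1 := by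
      have h2' : σ⁻¹ = σ := h2
      rw [pow_one, pow_two]
      nth_rewrite 1 [← h2']
      exact inv_mul_cancel σ
    have : Fact (Nat.Prime 2) := ⟨Nat.prime_two⟩
    obtain ⟨a, ha⟩ := Equiv.Perm.exists_fixed_point_of_prime ho h3
    have h4 : ∏ i, M (σ i) i = 0 := by
      refine prod_eq_zero (mem_univ a) ?_
      rw [ha, hd]
    rw [h4, smul_zero]
  · intro σ _
    exact inv_inv σ

/-- the parity of the size of an invertible symmetric matrix -/
theorem par (M : Matrix κ κ (ZMod 2)) (hs : ∀ i j, M i j = M j i)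
    (inj : ∀ v : κ → ZMod 2, M.mulVec v = 0 → v = 0) {c : κ → ZMod 2}
    (hc : M.mulVec c = fun i => M i i) : ∑ i, M i i * c i = (Fintype.card κ : ZMod 2) := by
  have two : ∀ x : ZMod 2, x + x = 0 := by decide
  have sq : ∀ x : ZMod 2, x * x = x := by decide
  have cases : ∀ x : ZMod 2, x = 0 ∨ x = 1 := by decide
  rcases Nat.even_or_odd (Fintype.card κ) with he | ho
  · have e0 : (Fintype.card κ : ZMod 2) = 0 := (ZMod.natCast_eq_zero_iff_even).2 he
    rw [e0]
    by_contra hne
    have h1 := (cases _).resolve_left hne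
    -- the bordered matrix
    set A : Matrix (κ ⊕ Unit) (κ ⊕ Unit) (ZMod 2) := Matrix.fromBlocks
      (fun i j => M i j + M i i * M j j) (fun i _ => M i i) (fun _ j => M j j) (fun _ _ => 0) with hA
    have hdet : A.det = 0 := by
      refine det_alt A ?_ ?_ ?_
      · rintro (i | i) (j | j)
        · show M i j + M i i * M j j = M j i + M j j * M i i
          rw [hs i j, mul_comm]
        · rfl
        · rfl
        · rfl
      · rintro (i | i)
        · show M i i + M i i * M i i = 0
          rw [sq, two]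
        · rfl
      · rw [Fintype.card_sum, Fintype.card_unit]
        obtain ⟨k, hk⟩ := he
        omega
    obtain ⟨w, hw, hw0⟩ := Matrix.exists_mulVec_eq_zero_iff.2 hdet
    set v : κ → ZMod 2 := fun i => w (Sum.inl i) with hv
    set t : ZMod 2 := w (Sum.inr ()) with ht
    have e1 : ∀ i, M.mulVec v i + M i i * (∑ j, M j j * v j) + M i i * t = 0 := by
      intro i
      have h2 := congrFun hw0 (Sum.inl i)
      simp only [Matrix.mulVec, dotProduct, Fintype.sum_sum_type, hA, Matrix.fromBlocks_apply₁₁,
        Matrix.fromBlocks_apply₁₂, Finset.univ_unique, Finset.sum_singleton, Pi.zero_apply] at h2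
      simp only [Matrix.mulVec, dotProduct]
      rw [mul_sum, ← sum_add_distrib]
      rw [← h2]
      congr 1
      refine sum_congr rfl fun j _ => ?_
      rw [hv]
      ring
    have e2 : ∑ j, M j j * v j = 0 := by
      have h2 := congrFun hw0 (Sum.inr ())
      simp only [Matrix.mulVec, dotProduct, Fintype.sum_sum_type, hA, Matrix.fromBlocks_apply₂₁,
        Matrix.fromBlocks_apply₂₂, Finset.univ_unique, Finset.sum_singleton, Pi.zero_apply,
        zero_mul, add_zero] at h2
      exact h2
    have e3 : v = t • c := by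
      have h3 : M.mulVec (v - t • c) = 0 := by
        rw [Matrix.mulVec_sub, Matrix.mulVec_smul, hc]
        funext i
        have h4 := e1 i
        rw [e2, mul_zero, add_zero] at h4
        show M.mulVec v i - t * M i i = 0
        have h5 : M.mulVec v i = - (M i i * t) := eq_neg_of_add_eq_zero_left h4
        have h6 := two (M i i * t)
        rw [h5]
        linear_combination -h6
      exact sub_eq_zero.1 (inj _ h3)
    have e4 : t = 0 := by
      have h3 := e2
      rw [e3] at h3
      have h4 : ∑ j, M j j * (t • c) j = t * ∑ j, M j j * c j := by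
        rw [mul_sum]
        exact sum_congr rfl fun j _ => by rw [Pi.smul_apply, smul_eq_mul]; ring
      rw [h4, h1, mul_one] at h3
      exact h3
    apply hw
    funext i
    rcases i with i | i
    · have := congrFun e3 i
      rw [e4, zero_smul] at this
      exact this
    · exact e4
  · have e0 : (Fintype.card κ : ZMod 2) = 1 := (ZMod.natCast_eq_one_iff_odd).2 ho
    rw [e0]
    by_contra hne
    have h1 : ∑ i, M i i * c i = 0 := by
      rcases cases (∑ i, M i i * c i) with h | h
      · exact h
      · exact absurd h hne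
    have hdet : Matrix.det (fun i j => M i j + M i i * M j j : Matrix κ κ (ZMod 2)) = 0 := by
      refine det_alt _ ?_ ?_ ?_
      · intro i j
        show M i j + M i i * M j j = M j i + M j j * M i i
        rw [hs i j, mul_comm]
      · intro i
        show M i i + M i i * M i i = 0
        rw [sq, two]
      · obtain ⟨k, hk⟩ := ho
        omega
    obtain ⟨v, hv, hv0⟩ := Matrix.exists_mulVec_eq_zero_iff.2 hdet
    set s : ZMod 2 := ∑ j, M j j * v j with hs'
    have e1 : ∀ i, M.mulVec v i + M i i * s = 0 := by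
      intro i
      have h2 := congrFun hv0 i
      simp only [Matrix.mulVec, dotProduct, Pi.zero_apply] at h2
      simp only [Matrix.mulVec, dotProduct]
      rw [hs', mul_sum, ← sum_add_distrib, ← h2]
      exact sum_congr rfl fun j _ => by ring
    have e3 : v = s • c := by
      have h3 : M.mulVec (v - s • c) = 0 := by
        rw [Matrix.mulVec_sub, Matrix.mulVec_smul, hc]
        funext i
        have h4 := e1 i
        show M.mulVec v i - s * M i i = 0
        have h5 : M.mulVec v i = - (M i i * s) := eq_neg_of_add_eq_zero_left h4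
        have h6 := two (M i i * s)
        rw [h5]
        linear_combination -h6
      exact sub_eq_zero.1 (inj _ h3)
    have e4 : s = 0 := by
      have h4 : s = s * ∑ j, M j j * c j := by
        rw [hs', mul_sum]
        conv_lhs => rw [e3]
        exact sum_congr rfl fun j _ => by rw [Pi.smul_apply, smul_eq_mul]; ring
      rw [h1, mul_zero] at h4
      exact h4
    apply hv
    rw [e3, e4, zero_smul]

end lin

open Pool.Agent.N875.X15
open Pool.Agent.N875.P17

variable {m : ℤ}

lemma zmul_self (x : ZMod 2) : x * x = x := by revert x; decide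

/-- the correction at `2` -/
def de (m : ℤ) : ZMod 2 := if 2 ∈ PR m ∧ d2 m = -1 then 1 else 0

/-- the symmetry of the Rédei matrix, the prime `2` included -/
theorem pair (hs : Squarefree m) {p q : ℕ} (hp : p ∈ PR m) (hq : q ∈ PR m) (hpq : p ≠ q) :
    ra p (ps m q) + ra q (ps m p) = al m p * al m q + de m * (if p = 2 then ra 2 (ps m q) else 0) +
      de m * (if q = 2 then ra 2 (ps m p) else 0) := by
  have hm0 := hs.ne_zero
  have hpr : ∀ p ∈ PR m, p.Prime := fun p hp => ((mem_PR hm0).1 hp).1
  -- the case of `q = 2`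
  have key : ∀ r ∈ PR m, r ≠ 2 → 2 ∈ PR m → ra r (ps m 2) + ra 2 (ps m r) =
      al m r * al m 2 + de m * ra 2 (ps m r) := by
    intro r hr hr2 h2
    have hc : d2 m = -1 ∨ d2 m = 2 ∨ d2 m = -2 := by
      have h3 := (two_mem_PR hm0).1 h2
      obtain ⟨h4, h5⟩ := d2_spec hs
      rcases h5 with ⟨-, h5 | h5⟩ | ⟨-, h5 | h5⟩
      · exfalso
        rw [h5, one_mul] at h4
        have := oe_mod m
        rw [← h4] at this
        exact h3 this
      · exact Or.inl h5
      · exact Or.inr (Or.inl h5)
      · exact Or.inr (Or.inr h5)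
    have h1 := hz_sgn (m := m) hc (P := {r}) (fun p hp => by
      rw [mem_singleton.1 hp]
      exact ⟨hpr r hr, hr2⟩)
    rw [sum_singleton, sum_singleton, prod_singleton, hz_oz hc (sgp_mod (hpr r hr) hr2)] at h1
    have e1 : ra 2 (ps m r) = oz (sgp r) := by rw [ra_two, ps_odd hr2]
    have e2 : al m 2 = if d2 m < 0 then 1 else 0 := by
      unfold al
      rw [ps_two]
    have e3 : de m = if d2 m = -1 then 1 else 0 := by
      unfold de
      by_cases h3 : d2 m = -1
      · rw [if_pos ⟨h2, h3⟩, if_pos h3]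
      · rw [if_neg (fun h => h3 h.2), if_neg h3]
    rw [ps_two, h1, e1, e2, e3]
    by_cases h3 : d2 m = -1
    · rw [if_pos h3, if_pos h3]
      ring
    · rw [if_neg h3, if_neg h3]
      have := two_zmod (oz (sgp r))
      linear_combination this
  by_cases hp2 : p = 2
  · subst hp2
    have hq2 : ¬ q = 2 := fun h => hpq h.symm
    rw [if_pos rfl, if_neg hq2, mul_zero, add_zero, add_comm, key q hq hq2 hp, mul_comm (al m q)]
  · by_cases hq2 : q = 2
    · subst hq2
      rw [if_neg hp2, if_pos rfl, mul_zero, add_zero, key p hp hp2 hq]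
    · rw [if_neg hp2, if_neg hq2, mul_zero, add_zero, add_zero]
      exact ra_sym (hpr p hp) (hpr q hq) hp2 hq2 hpq

/-- the column sums -/
theorem col_sum (hs : Squarefree m) {q : ℕ} (hq : q ∈ PR m) :
    ∑ p ∈ PR m, Lm m p q = al m q * (∑ p ∈ PR m, al m p + 1) +
      de m * (if 2 ∈ PR m then Lm m 2 q else 0) := by
  have h1 : ∑ p ∈ PR m, Lm m p q =
      ∑ r ∈ (PR m).erase q, (ra r (ps m q) + ra q (ps m r)) := by
    rw [← add_sum_erase _ _ hq, sum_add_distrib, add_comm]
    congr 1
    · refine sum_congr rfl fun p hp => ?_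
      exact if_neg (ne_of_mem_erase hp)
    · exact if_pos rfl
  have h2 : ∑ r ∈ (PR m).erase q, (ra r (ps m q) + ra q (ps m r)) =
      ∑ r ∈ (PR m).erase q, (al m r * al m q + de m * (if r = 2 then ra 2 (ps m q) else 0) +
      de m * (if q = 2 then ra 2 (ps m r) else 0)) :=
    sum_congr rfl fun r hr => pair hs (mem_of_mem_erase hr) hq (ne_of_mem_erase hr)
  have h3 : ∑ r ∈ (PR m).erase q, al m r * al m q = al m q * (∑ p ∈ PR m, al m p + 1) := by
    rw [← sum_mul, ← add_sum_erase _ _ hq]
    have := two_zmod (al m q)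
    have h4 := zmul_self (al m q)
    linear_combination (-1 : ZMod 2) * h4 - this
  have h4 : ∑ r ∈ (PR m).erase q, (de m * (if r = 2 then ra 2 (ps m q) else 0) +
      de m * (if q = 2 then ra 2 (ps m r) else 0)) =
      de m * (if 2 ∈ PR m then Lm m 2 q else 0) := by
    rw [sum_add_distrib, ← mul_sum, ← mul_sum, ← mul_add]
    congr 1
    by_cases hq2 : q = 2
    · subst hq2
      rw [if_pos hq]
      have e1 : ∑ r ∈ (PR m).erase 2, (if r = 2 then ra 2 (ps m 2) else 0) = 0 :=
        sum_eq_zero fun r hr => if_neg (ne_of_mem_erase hr)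
      have e2 : ∑ r ∈ (PR m).erase 2, (if (2 : ℕ) = 2 then ra 2 (ps m r) else 0) =
          ∑ r ∈ (PR m).erase 2, ra 2 (ps m r) := sum_congr rfl fun r _ => if_pos rfl
      have e3 : Lm m 2 2 = ∑ r ∈ (PR m).erase 2, ra 2 (ps m r) := if_pos rfl
      rw [e1, e2, e3, zero_add]
    · have e2 : ∑ r ∈ (PR m).erase q, (if q = 2 then ra 2 (ps m r) else 0) = 0 :=
        sum_eq_zero fun r _ => if_neg hq2
      rw [e2, add_zero, sum_ite_eq']
      by_cases h5 : 2 ∈ PR m
      · rw [if_pos h5, if_pos (mem_erase.2 ⟨fun h => hq2 h.symm, h5⟩)]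
        have e3 : Lm m 2 q = ra 2 (ps m q) := if_neg (fun h => hq2 h.symm)
        rw [e3]
      · rw [if_neg h5, if_neg (fun h => h5 (mem_of_mem_erase h))]
  rw [h1, h2]
  have h5 : ∀ r, al m r * al m q + de m * (if r = 2 then ra 2 (ps m q) else 0) +
      de m * (if q = 2 then ra 2 (ps m r) else 0) = al m r * al m q +
      (de m * (if r = 2 then ra 2 (ps m q) else 0) +
      de m * (if q = 2 then ra 2 (ps m r) else 0)) := fun r => add_assoc _ _ _
  rw [sum_congr rfl fun r _ => h5 r, sum_add_distrib, h3, h4]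

/-- the entries of the matrix of `Sg` -/
def mm (m : ℤ) : {p // p ∈ (PR m).erase 17} ⊕ {p // p ∈ PR m} →
    {p // p ∈ (PR m).erase 17} ⊕ {p // p ∈ PR m} → ZMod 2
  | Sum.inl p, Sum.inl q => if p = q then ra p.1 17 else 0
  | Sum.inl p, Sum.inr q => Lm m p.1 q.1
  | Sum.inr q, Sum.inl p => Lm m p.1 q.1
  | Sum.inr p, Sum.inr q => if p = q then al m p.1 else 0

/-- the matrix of `Sg` -/
def MM (m : ℤ) : Matrix ({p // p ∈ (PR m).erase 17} ⊕ {p // p ∈ PR m})
    ({p // p ∈ (PR m).erase 17} ⊕ {p // p ∈ PR m}) (ZMod 2) := mm m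

theorem MM_symm (i j : {p // p ∈ (PR m).erase 17} ⊕ {p // p ∈ PR m}) : MM m i j = MM m j i := by
  rcases i with i | i <;> rcases j with j | j
  · show (if i = j then ra i.1 17 else 0) = (if j = i then ra j.1 17 else 0)
    by_cases h : i = j
    · subst h; rfl
    · rw [if_neg h, if_neg (Ne.symm h)]
  · rfl
  · rfl
  · show (if i = j then al m i.1 else 0) = (if j = i then al m j.1 else 0)
    by_cases h : i = j
    · subst h; rfl
    · rw [if_neg h, if_neg (Ne.symm h)]

theorem MM_inl (v : {p // p ∈ (PR m).erase 17} ⊕ {p // p ∈ PR m} → ZMod 2)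
    (p : {p // p ∈ (PR m).erase 17}) : (MM m).mulVec v (Sum.inl p) =
      ra p.1 17 * v (Sum.inl p) + ∑ q : {q // q ∈ PR m}, Lm m p.1 q.1 * v (Sum.inr q) := by
  show ∑ j, MM m (Sum.inl p) j * v j = _
  rw [Fintype.sum_sum_type]
  congr 1
  have : ∀ x : {p // p ∈ (PR m).erase 17}, MM m (Sum.inl p) (Sum.inl x) * v (Sum.inl x) =
      if p = x then ra p.1 17 * v (Sum.inl p) else 0 := by
    intro x
    show (if p = x then ra p.1 17 else 0) * _ = _
    by_cases h : p = x
    · subst h
      rw [if_pos rfl, if_pos rfl]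
    · rw [if_neg h, if_neg h, zero_mul]
  rw [sum_congr rfl fun x _ => this x, sum_ite_eq, if_pos (mem_univ _)]

theorem MM_inr (v : {p // p ∈ (PR m).erase 17} ⊕ {p // p ∈ PR m} → ZMod 2)
    (q : {p // p ∈ PR m}) : (MM m).mulVec v (Sum.inr q) =
      ∑ p : {p // p ∈ (PR m).erase 17}, Lm m p.1 q.1 * v (Sum.inl p) +
      al m q.1 * v (Sum.inr q) := by
  show ∑ j, MM m (Sum.inr q) j * v j = _
  rw [Fintype.sum_sum_type]
  congr 1
  have : ∀ x : {p // p ∈ PR m}, MM m (Sum.inr q) (Sum.inr x) * v (Sum.inr x) =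
      if q = x then al m q.1 * v (Sum.inr q) else 0 := by
    intro x
    show (if q = x then al m q.1 else 0) * _ = _
    by_cases h : q = x
    · subst h
      rw [if_pos rfl, if_pos rfl]
    · rw [if_neg h, if_neg h, zero_mul]
  rw [sum_congr rfl fun x _ => this x, sum_ite_eq, if_pos (mem_univ _)]

/-- `Sg m` says that the matrix is invertible -/
theorem MM_inj (hS : Sg m) (v : {p // p ∈ (PR m).erase 17} ⊕ {p // p ∈ PR m} → ZMod 2)
    (hv : (MM m).mulVec v = 0) : v = 0 := by
  classical
  set x : ℕ → ZMod 2 := fun p => if h : p ∈ (PR m).erase 17 then v (Sum.inl ⟨p, h⟩) else 0 with hx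
  set y : ℕ → ZMod 2 := fun p => if h : p ∈ PR m then v (Sum.inr ⟨p, h⟩) else 0 with hy
  have ex : ∀ p : {p // p ∈ (PR m).erase 17}, x p.1 = v (Sum.inl p) := fun p => dif_pos p.2
  have ey : ∀ p : {p // p ∈ PR m}, y p.1 = v (Sum.inr p) := fun p => dif_pos p.2
  have x17 : x 17 = 0 := dif_neg (by simp)
  have key := hS x y x17 (fun p hp h17 => by
    have h1 := congrFun hv (Sum.inl ⟨p, mem_erase.2 ⟨h17, hp⟩⟩)
    rw [MM_inl, ← ex] at h1
    rw [Pi.zero_apply] at h1
    rw [← h1]
    congr 1
    rw [← sum_coe_sort (PR m) (fun q => Lm m p q * y q)]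
    exact sum_congr rfl fun q _ => by rw [ey]) (fun q hq => by
    have h1 := congrFun hv (Sum.inr ⟨q, hq⟩)
    rw [MM_inr, ← ey, Pi.zero_apply] at h1
    rw [← h1]
    congr 1
    have h2 : ∑ p ∈ (PR m).erase 17, Lm m p q * x p = ∑ p ∈ PR m, Lm m p q * x p := by
      refine sum_subset (erase_subset _ _) fun p hp hn => ?_
      have : p = 17 := by
        by_contra h
        exact hn (mem_erase.2 ⟨h, hp⟩)
      rw [this, x17, mul_zero]
    rw [← h2, ← sum_coe_sort ((PR m).erase 17) (fun p => Lm m p q * x p)]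
    exact sum_congr rfl fun p _ => by rw [ex])
  funext i
  rcases i with i | i
  · rw [← ex]
    exact (key i.1 (mem_of_mem_erase i.2)).1
  · rw [← ey]
    exact (key i.1 i.2).2

theorem MM_diag_inl (p : {p // p ∈ (PR m).erase 17}) :
    MM m (Sum.inl p) (Sum.inl p) = ra p.1 17 := if_pos rfl

theorem MM_diag_inr (p : {p // p ∈ PR m}) : MM m (Sum.inr p) (Sum.inr p) = al m p.1 := if_pos rfl

/-- the sum of the signs -/
theorem al_total (hs : Squarefree m) : ∑ q ∈ PR m, al m q = if m < 0 then 1 else 0 := by
  have h0 : ∀ q ∈ PR m, ps m q ≠ 0 := fun q hq h0 => by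
    have := prod_PR hs
    rw [Finset.prod_eq_zero hq h0] at this
    exact hs.ne_zero this.symm
  have h1 := prod_sign (PR m) h0
  rw [prod_PR hs] at h1
  rcases h1 with h | h
  · rw [h.1, if_neg (by omega)]
  · rw [h.1, if_pos (by omega)]

lemma ra2_17' : ra 2 17 = 0 := by
  unfold ra
  rw [ch_two]
  rfl

/-- the sum of the symbols `(17 / p)` -/
theorem nu_total (hs : Squarefree m) (h17 : ¬ (17 : ℤ) ∣ m) :
    sg (∑ p ∈ PR m, ra p 17) = jacobiSym m 17 := by
  classical
  have hm0 := hs.ne_zero
  have hpr : ∀ p ∈ PR m, p.Prime := fun p hp => ((mem_PR hm0).1 hp).1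
  have h17P : ∀ p ∈ PR m, p ≠ 17 := by
    rintro p h rfl
    rcases ((mem_PR hm0).1 h).2 with h1 | h1
    · exact h17 (by exact_mod_cast h1)
    · norm_num at h1
  -- one prime
  have one : ∀ p ∈ PR m, sg (ra p 17) = jacobiSym (ps m p) 17 := by
    intro p hp
    have hpp := hpr p hp
    by_cases hp2 : p = 2
    · subst hp2
      have hd : d2 m = 1 ∨ d2 m = -1 ∨ d2 m = 2 ∨ d2 m = -2 := by
        obtain ⟨-, h5⟩ := d2_spec hs
        rcases h5 with ⟨-, h5 | h5⟩ | ⟨-, h5 | h5⟩
        · exact Or.inl h5
        · exact Or.inr (Or.inl h5)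
        · exact Or.inr (Or.inr (Or.inl h5))
        · exact Or.inr (Or.inr (Or.inr h5))
      have e0 : sg 0 = 1 := by decide
      rw [ra2_17', ps_two, e0]
      rcases hd with h | h | h | h <;> rw [h] <;> norm_num
    · have h1 : sg (ra p 17) = jacobiSym 17 p := by
        have g : Gd p 17 := by
          rw [gd_odd hp2]
          intro h
          have h2 : (p : ℤ) ∣ ((17 : ℕ) : ℤ) := by exact_mod_cast h
          have h3 : p ∣ 17 := by exact_mod_cast h2
          exact h17P p hp ((Nat.prime_dvd_prime_iff_eq hpp (by norm_num)).1 h3)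
        rw [sg_ra hpp g, ch_odd hp2]
      have hodd : Odd p := hpp.odd_of_ne_two hp2
      have h2 : jacobiSym 17 p = jacobiSym (p : ℤ) 17 := by
        have := jacobiSym.quadratic_reciprocity_one_mod_four (a := 17) (b := p) (by norm_num) hodd
        exact_mod_cast this
      have h3 : jacobiSym (ps m p) 17 = jacobiSym (p : ℤ) 17 := by
        rw [ps_odd hp2]
        unfold sgp
        split_ifs with h4
        · rfl
        · rw [jacobiSym.neg _ (by decide : Odd 17)]
          have h5 : ZMod.χ₄ (17 : ℕ) = 1 := by decide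
          rw [h5, one_mul]
      rw [h1, h2, h3]
  have hsum : ∀ T : Finset ℕ, T ⊆ PR m →
      sg (∑ p ∈ T, ra p 17) = jacobiSym (∏ p ∈ T, ps m p) 17 := by
    intro T
    induction T using Finset.induction_on with
    | empty =>
      intro _
      rw [sum_empty, prod_empty, jacobiSym.one_left]
      rfl
    | insert a s ha ih =>
      intro hT
      rw [sum_insert ha, prod_insert ha, sg_add, jacobiSym.mul_left,
        ih fun x hx => hT (mem_insert_of_mem hx), one a (hT (mem_insert_self _ _))]
  rw [hsum _ subset_rfl, prod_PR hs]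

/-- **2-parity**: the criterion holds only if the root number is `+ 1`. -/
theorem sg_parity (hs : Squarefree m) (hS : Sg m) :
    (m < 0 ∧ jacobiSym m 17 ≠ 1) ∨ (0 < m ∧ jacobiSym m 17 = 1) := by
  classical
  have hm0 := hs.ne_zero
  have hpr : ∀ p ∈ PR m, p.Prime := fun p hp => ((mem_PR hm0).1 hp).1
  have inj := MM_inj hS
  by_cases h17 : (17 : ℤ) ∣ m
  · -- `17 ∣ m`
    have h17P : 17 ∈ PR m := (mem_PR hm0).2 ⟨by norm_num, Or.inl (by exact_mod_cast h17)⟩
    set c : {p // p ∈ (PR m).erase 17} ⊕ {p // p ∈ PR m} → ZMod 2 :=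
      Sum.elim (fun _ => 0) (fun q => if q.1 = 17 then 0 else 1) with hc
    have hal17 : al m 17 = 0 := by
      rw [al_odd (by norm_num)]
      decide
    have h1 : (MM m).mulVec c = fun i => MM m i i := by
      funext i
      rcases i with p | q
      · rw [MM_inl, MM_diag_inl]
        have e1 : c (Sum.inl p) = 0 := rfl
        rw [e1, mul_zero, zero_add]
        have e2 : ∑ q : {q // q ∈ PR m}, Lm m p.1 q.1 * c (Sum.inr q) =
            ∑ q ∈ PR m, Lm m p.1 q * (if q = 17 then 0 else 1) := by
          rw [← sum_coe_sort (PR m) (fun q => Lm m p.1 q * (if q = 17 then 0 else 1))]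
          rfl
        have hp := mem_of_mem_erase p.2
        have hpne := ne_of_mem_erase p.2
        have e3 : ∑ q ∈ PR m, Lm m p.1 q * (if q = 17 then 0 else 1) = Lm m p.1 17 := by
          have h2 := row_sum (m := m) hp
          rw [← add_sum_erase _ _ h17P] at h2 ⊢
          rw [if_pos rfl, mul_zero, zero_add]
          have h3 : ∑ q ∈ (PR m).erase 17, Lm m p.1 q * (if q = 17 then 0 else 1) =
              ∑ q ∈ (PR m).erase 17, Lm m p.1 q :=
            sum_congr rfl fun q hq => by rw [if_neg (ne_of_mem_erase hq), mul_one]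
          rw [h3]
          have h4 := two_zmod (Lm m p.1 17)
          linear_combination h2 - h4
        have e4 : Lm m p.1 17 = ra p.1 17 := by
          unfold Lm
          rw [if_neg hpne, ps_odd (by norm_num)]
          rfl
        rw [e2, e3, e4]
      · rw [MM_inr, MM_diag_inr]
        have e1 : ∑ p : {p // p ∈ (PR m).erase 17}, Lm m p.1 q.1 * c (Sum.inl p) = 0 :=
          sum_eq_zero fun p _ => mul_zero _
        rw [e1, zero_add]
        show al m q.1 * (if q.1 = 17 then 0 else 1) = al m q.1
        by_cases h : q.1 = 17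
        · rw [if_pos h, h, hal17, mul_zero]
        · rw [if_neg h, mul_one]
    have h2 := par (MM m) MM_symm inj h1
    have h3 : ∑ i, MM m i i * c i = ∑ q ∈ PR m, al m q := by
      rw [Fintype.sum_sum_type]
      have e1 : ∑ p : {p // p ∈ (PR m).erase 17}, MM m (Sum.inl p) (Sum.inl p) * c (Sum.inl p) = 0 :=
        sum_eq_zero fun p _ => mul_zero _
      rw [e1, zero_add, ← sum_coe_sort (PR m) (fun q => al m q)]
      refine sum_congr rfl fun q _ => ?_
      rw [MM_diag_inr]
      show al m q.1 * (if q.1 = 17 then 0 else 1) = al m q.1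
      by_cases h : q.1 = 17
      · rw [if_pos h, h, hal17, mul_zero]
      · rw [if_neg h, mul_one]
    have h4 : (Fintype.card ({p // p ∈ (PR m).erase 17} ⊕ {p // p ∈ PR m}) : ZMod 2) = 1 := by
      rw [Fintype.card_sum, Fintype.card_coe, Fintype.card_coe]
      rw [ZMod.natCast_eq_one_iff_odd]
      have := card_erase_add_one h17P
      exact ⟨((PR m).erase 17).card, by omega⟩
    rw [h3, h4, al_total hs] at h2
    left
    by_cases hneg : m < 0
    · refine ⟨hneg, ?_⟩
      have : jacobiSym m 17 = 0 := by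
        rw [jacobiSym.eq_zero_iff_not_coprime]
        intro h5
        have h6 : (17 : ℤ) ∣ ((m.gcd (17 : ℕ) : ℕ) : ℤ) := Int.dvd_coe_gcd h17 (by norm_num)
        rw [h5] at h6
        norm_num at h6
      rw [this]
      norm_num
    · rw [if_neg hneg] at h2
      exact absurd h2 (by decide)
  · have h17P : 17 ∉ PR m := by
      intro h
      rcases ((mem_PR hm0).1 h).2 with h1 | h1
      · exact h17 (by exact_mod_cast h1)
      · norm_num at h1
    have hE : (PR m).erase 17 = PR m := erase_eq_of_notMem h17P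
    set S : ZMod 2 := ∑ q ∈ PR m, al m q with hSdef
    set xx : ℕ → ZMod 2 := fun p => 1 + (if p = 2 then de m else 0) with hxx
    set c : {p // p ∈ (PR m).erase 17} ⊕ {p // p ∈ PR m} → ZMod 2 :=
      Sum.elim (fun p => xx p.1) (fun _ => S) with hc
    have hN : ∀ p, ra p 17 * xx p = ra p 17 := by
      intro p
      by_cases h : p = 2
      · rw [h, ra2_17', zero_mul]
      · rw [hxx]
        show ra p 17 * (1 + (if p = 2 then de m else 0)) = _
        rw [if_neg h, add_zero, mul_one]
    have h1 : (MM m).mulVec c = fun i => MM m i i := by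
      funext i
      rcases i with p | q
      · rw [MM_inl, MM_diag_inl]
        have e1 : c (Sum.inl p) = xx p.1 := rfl
        rw [e1, hN]
        have hp := mem_of_mem_erase p.2
        have e2 : ∑ q : {q // q ∈ PR m}, Lm m p.1 q.1 * c (Sum.inr q) = 0 := by
          have e3 : ∑ q : {q // q ∈ PR m}, Lm m p.1 q.1 * c (Sum.inr q) =
              ∑ q ∈ PR m, Lm m p.1 q * S := by
            rw [← sum_coe_sort (PR m) (fun q => Lm m p.1 q * S)]
            rfl
          rw [e3, ← sum_mul, row_sum hp, zero_mul]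
        rw [e2, add_zero]
      · rw [MM_inr, MM_diag_inr]
        have e1 : ∑ p : {p // p ∈ (PR m).erase 17}, Lm m p.1 q.1 * c (Sum.inl p) =
            ∑ p ∈ PR m, Lm m p q.1 * xx p := by
          have e0 : ∑ p ∈ PR m, Lm m p q.1 * xx p = ∑ p ∈ (PR m).erase 17, Lm m p q.1 * xx p :=
            sum_congr hE.symm fun _ _ => rfl
          rw [e0, ← sum_coe_sort ((PR m).erase 17) (fun p => Lm m p q.1 * xx p)]
          rfl
        have e2 : ∑ p ∈ PR m, Lm m p q.1 * xx p = ∑ p ∈ PR m, Lm m p q.1 +
            de m * (if 2 ∈ PR m then Lm m 2 q.1 else 0) := by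
          have e3 : ∀ p ∈ PR m, Lm m p q.1 * xx p = Lm m p q.1 +
              (if p = 2 then de m * Lm m p q.1 else 0) := by
            intro p _
            show Lm m p q.1 * (1 + (if p = 2 then de m else 0)) = _
            by_cases h : p = 2
            · rw [if_pos h, if_pos h]; ring
            · rw [if_neg h, if_neg h]; ring
          rw [sum_congr rfl e3, sum_add_distrib, sum_ite_eq']
          by_cases h : 2 ∈ PR m
          · rw [if_pos h, if_pos h]
          · rw [if_neg h, if_neg h, mul_zero]
        rw [e1, e2, col_sum hs q.2]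
        show al m q.1 * (S + 1) + de m * (if 2 ∈ PR m then Lm m 2 q.1 else 0) +
          de m * (if 2 ∈ PR m then Lm m 2 q.1 else 0) + al m q.1 * S = al m q.1
        have h2 := two_zmod (de m * (if 2 ∈ PR m then Lm m 2 q.1 else 0))
        have h3 := two_zmod (al m q.1 * S)
        linear_combination h2 + h3
    have h2 := par (MM m) MM_symm inj h1
    have h3 : ∑ i, MM m i i * c i = ∑ p ∈ PR m, ra p 17 + S := by
      rw [Fintype.sum_sum_type]
      have e1 : ∑ p : {p // p ∈ (PR m).erase 17}, MM m (Sum.inl p) (Sum.inl p) * c (Sum.inl p) =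
          ∑ p ∈ (PR m).erase 17, ra p 17 := by
        rw [← sum_coe_sort ((PR m).erase 17) (fun p => ra p 17)]
        refine sum_congr rfl fun p _ => ?_
        rw [MM_diag_inl]
        exact hN p.1
      have e2 : ∑ q : {p // p ∈ PR m}, MM m (Sum.inr q) (Sum.inr q) * c (Sum.inr q) = S := by
        have e3 : ∑ q : {p // p ∈ PR m}, MM m (Sum.inr q) (Sum.inr q) * c (Sum.inr q) =
            ∑ q ∈ PR m, al m q * S := by
          rw [← sum_coe_sort (PR m) (fun q => al m q * S)]
          refine sum_congr rfl fun q _ => ?_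
          rw [MM_diag_inr]
          rfl
        rw [e3, ← sum_mul]
        exact zmul_self S
      rw [e1, e2, hE]
    have h4 : (Fintype.card ({p // p ∈ (PR m).erase 17} ⊕ {p // p ∈ PR m}) : ZMod 2) = 0 := by
      rw [Fintype.card_sum, Fintype.card_coe, Fintype.card_coe, hE]
      rw [ZMod.natCast_eq_zero_iff_even]
      exact ⟨(PR m).card, rfl⟩
    rw [h3, h4] at h2
    have h5 : ∑ p ∈ PR m, ra p 17 = S := by
      have := two_zmod S
      linear_combination h2 - this
    have h6 := nu_total hs h17
    rw [h5, hSdef, al_total hs] at h6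
    rcases lt_or_gt_of_ne hm0 with h | h
    · left
      refine ⟨h, ?_⟩
      rw [if_pos h] at h6
      rw [← h6]
      decide
    · right
      refine ⟨h, ?_⟩
      rw [if_neg (by omega)] at h6
      rw [← h6]
      decide

end Pool.Agent.N809.P17
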