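import Pool.Agent.N871.S17.Asm
import Pool.Agent.N809.P17.All

/-!
# The complete L-functions of the twists of the newform of level `17` by the quadratic characters
-/

set_option autoImplicit false
set_option linter.style.haveILetI false

open Finset

namespace Pool.Agent.N809.P17.Tw

open Pool.Agent.N871.S17
open Pool.Agent.N875.P17 (Em Sg fin2S_iff)
open Pool.Agent.N875.X15 (Fin2)
open Pool.Agent.N972.P17
open Pool.Agent.N969.P15 (Ev chE)
open Pool.Agent.N919.BS (Rt17)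
open Pool.Agent.N974.Gen
open Pool.Agent.W97.MT (ap)
open Pool.Agent.Y700 (IsL Omega)

/-- the value at the prime `p` of the quadratic character of `ℚ(√m)`, `m` squarefree -/
def chi (m : ℤ) (p : ℕ) : ℤ :=
  if p = 2 then (if m % 8 = 1 then 1 else if m % 8 = 5 then -1 else 0) else jacobiSym m p

/-- the coefficients -/
theorem ap_EE {m : ℤ} (p : ℕ) (hp : p.Prime) : ap (EE m) p = ap E17 p * chi m p := by
  haveI : Fact p.Prime := ⟨hp⟩
  unfold EE chi
  by_cases h4 : m % 4 = 1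
  · rw [if_pos h4]
    by_cases hp2 : p = 2
    · subst hp2
      rw [if_pos rfl, ap_two h4, ap17_2]
      by_cases h8 : m % 8 = 1
      · rw [if_pos h8, if_pos h8]
        norm_num
      · rw [if_neg h8, if_neg h8, if_pos (by omega)]
        norm_num
    · rw [if_neg hp2, ap_WN_sum hp2 h4]
      by_cases hd : (p : ℤ) ∣ m
      · have h0 : jacobiSym m p = 0 := by
          rw [jacobiSym.eq_zero_iff]
          refine ⟨hp.ne_zero, ?_⟩
          have h1 : Int.gcd m p = p := by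
            show Nat.gcd m.natAbs (p : ℤ).natAbs = p
            rw [Int.natAbs_natCast]
            exact Nat.gcd_eq_right (Int.natCast_dvd.1 hd)
          rw [h1]
          exact hp.one_lt.ne'
        rw [sum_dvd hp2 hd, h0]
        ring
      · rw [sum_ndvd hp2 hd]
  · rw [if_neg h4]
    by_cases hp2 : p = 2
    · subst hp2
      rw [if_pos rfl, ap_Em_two, if_neg (by omega), if_neg (by omega), mul_zero]
    · rw [if_neg hp2, ap_Em p hp hp2]

/-- the square of the character -/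
theorem chi_sq {m : ℤ} (hs : Squarefree m) {p : ℕ} (hp : p.Prime) :
    ((p : ℤ) ∣ (EE m).Δ ↔ p = 17 ∨ chi m p = 0) ∧ (chi m p = 0 ∨ chi m p ^ 2 = 1) := by
  have hp' : Prime (p : ℤ) := Nat.prime_iff_prime_int.1 hp
  have hm0 := hs.ne_zero
  have h17 : p ∣ 17 ↔ p = 17 := Nat.prime_dvd_prime_iff_eq hp (by norm_num)
  -- the character
  have hchi : p ≠ 2 → ((chi m p = 0 ↔ (p : ℤ) ∣ m) ∧ (chi m p = 0 ∨ chi m p ^ 2 = 1)) := by
    intro hp2
    unfold chi
    rw [if_neg hp2]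
    have e : jacobiSym m p = 0 ↔ (p : ℤ) ∣ m := by
      haveI : NeZero p := ⟨hp.ne_zero⟩
      rw [jacobiSym.eq_zero_iff_not_coprime]
      have h1 : Int.gcd m p = 1 ↔ ¬ (p : ℤ) ∣ m := by
        rw [show Int.gcd m p = Nat.gcd m.natAbs p from rfl, Nat.gcd_comm,
          Int.natCast_dvd]
        exact Nat.Prime.coprime_iff_not_dvd hp
      exact ⟨fun h => not_not.1 fun h2 => h (h1.2 h2), fun h h2 => h1.1 h2 h⟩
    refine ⟨e, ?_⟩
    by_cases hd : (p : ℤ) ∣ m
    · exact Or.inl (e.2 hd)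
    · right
      have h1 : Int.gcd m p = 1 := by
        rw [show Int.gcd m p = Nat.gcd m.natAbs p from rfl, Nat.gcd_comm]
        exact (Nat.Prime.coprime_iff_not_dvd hp).2 (fun h => hd (Int.natCast_dvd.2 h))
      rcases jacobiSym.eq_one_or_neg_one h1 with h2 | h2 <;> rw [h2] <;> norm_num
  by_cases h4 : m % 4 = 1
  · have e : EE m = WN m := if_pos h4
    rw [e, dvd_Δ (WN_Δ' h4) hp, h17, ← Int.natCast_dvd]
    by_cases hp2 : p = 2
    · subst hp2
      have h2 : ¬ (((2 : ℕ) : ℤ) ∣ m) := by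
        push_cast
        omega
      have h3 : chi m 2 = 1 ∨ chi m 2 = -1 := by
        unfold chi
        rw [if_pos rfl]
        by_cases h8 : m % 8 = 1
        · rw [if_pos h8]
          exact Or.inl rfl
        · rw [if_neg h8, if_pos (by omega)]
          exact Or.inr rfl
      have h5 : chi m 2 ≠ 0 := by
        rcases h3 with h | h <;> rw [h] <;> norm_num
      refine ⟨⟨fun h => ?_, fun h => ?_⟩, Or.inr ?_⟩
      · rcases h with h | h
        · exact Or.inl h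
        · exact absurd h h2
      · rcases h with h | h
        · exact Or.inl h
        · exact absurd h h5
      · rcases h3 with h | h <;> rw [h] <;> norm_num
    · obtain ⟨h1, h2⟩ := hchi hp2
      rw [h1]
      exact ⟨Iff.rfl, h2.imp_left h1.1⟩
  · have e : EE m = Em m := if_neg h4
    rw [e, dvd_Δ (Em_Δ' m) hp, h17, ← Int.natCast_dvd]
    by_cases hp2 : p = 2
    · subst hp2
      have h2 : (((2 : ℕ) : ℤ) ∣ 4 * m) := by
        push_cast
        omega
      have h3 : chi m 2 = 0 := by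
        unfold chi
        rw [if_pos rfl, if_neg (by omega), if_neg (by omega)]
      exact ⟨⟨fun _ => Or.inr h3, fun _ => Or.inr h2⟩, Or.inl h3⟩
    · obtain ⟨h1, h2⟩ := hchi hp2
      have h3 : (p : ℤ) ∣ 4 * m ↔ (p : ℤ) ∣ m := by
        constructor
        · intro h
          rcases hp'.dvd_mul.1 h with h5 | h5
          · exfalso
            have h6 : p ∣ 2 ^ 2 := by exact_mod_cast h5
            exact hp2 ((Nat.prime_dvd_prime_iff_eq hp Nat.prime_two).1 (hp.dvd_of_dvd_pow h6))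
          · exact h5
        · exact fun h => Dvd.dvd.mul_left h 4
      rw [h3, h1]
      exact ⟨Iff.rfl, h2.imp_left h1.1⟩

/-- the complete L-function of the newform of level `17` twisted by the character of `ℚ(√m)` -/
def IsLt (m : ℤ) (F : ℂ → ℂ) : Prop :=
  Differentiable ℂ F ∧ ∀ s : ℂ, (3 : ℝ) / 2 < s.re →
    HasProd (fun p : Nat.Primes => (1 - ((chi m p * ap E17 p : ℤ) : ℂ) * ((p : ℕ) : ℂ) ^ (-s) +
      (if (p : ℕ) = 17 then 0 else ((chi m p ^ 2 : ℤ) : ℂ) * ((p : ℕ) : ℂ) ^ (1 - 2 * s)))⁻¹) (F s)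

theorem isL_iff {m : ℤ} (hs : Squarefree m) (F : ℂ → ℂ) : IsL (EE m) F ↔ IsLt m F := by
  unfold IsL IsLt
  refine and_congr Iff.rfl (forall_congr' fun s => forall_congr' fun _ => ?_)
  have e : (fun p : Nat.Primes => (1 - (ap (EE m) p : ℂ) * ((p : ℕ) : ℂ) ^ (-s) +
      (if ((p : ℕ) : ℤ) ∣ (EE m).Δ then 0 else ((p : ℕ) : ℂ) ^ (1 - 2 * s)))⁻¹) =
      fun p : Nat.Primes => (1 - ((chi m p * ap E17 p : ℤ) : ℂ) * ((p : ℕ) : ℂ) ^ (-s) +
      (if (p : ℕ) = 17 then 0 else ((chi m p ^ 2 : ℤ) : ℂ) * ((p : ℕ) : ℂ) ^ (1 - 2 * s)))⁻¹ := by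
    funext p
    obtain ⟨h1, h2⟩ := chi_sq hs p.2
    rw [ap_EE _ p.2, mul_comm (ap E17 p) (chi m p)]
    congr 2
    by_cases h17 : (p : ℕ) = 17
    · rw [if_pos h17, if_pos (h1.2 (Or.inl h17))]
    · rw [if_neg h17]
      rcases h2 with h2 | h2
      · rw [if_pos (h1.2 (Or.inr h2)), h2]
        norm_num
      · have h3 : ¬ ((p : ℕ) : ℤ) ∣ (EE m).Δ := by
          intro h
          rcases h1.1 h with h4 | h4
          · exact h17 h4
          · rw [h4] at h2
            norm_num at h2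
        rw [if_neg h3, h2]
        norm_num
  rw [e]

/-- **vanishing for the root number `-1`** -/
theorem van_all {m : ℤ} (hs : Squarefree m) (hR : ¬ Rt17 m) :
    ∃ F : ℂ → ℂ, IsL (EE m) F ∧ F 1 = 0 := by
  have h0 := hs.ne_zero
  have h4 := mod4_ne hs
  unfold EE
  by_cases h1 : m % 4 = 1
  · rw [if_pos h1]
    rcases lt_or_gt_of_ne h0 with hm | hm
    · obtain ⟨n, rfl⟩ : ∃ n : ℕ, m = -(n : ℤ) := ⟨m.natAbs, by omega⟩
      have hn : Squarefree n :=
        Int.squarefree_natCast.1 fun x hx => hs x ((dvd_neg).2 hx)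
      have h17 : jacobiSym n 17 = 1 := by
        by_contra h
        exact hR (Or.inr ⟨hm, by rw [jneg]; exact h⟩)
      have c4 : (WN (-(n : ℤ))).c₄ = 273 * (n : ℤ) ^ 2 := by rw [c4_WN h1]; ring
      have c6 : (WN (-(n : ℤ))).c₆ = -(4455 * (n : ℤ) ^ 3) := by rw [c6_WN h1]; ring
      have ha : ∀ p : ℕ, p.Prime → ap (WN (-(n : ℤ))) p = ap E17 p * jacobiSym p n := by
        intro p hp
        rw [ap_WN h1 p hp, Int.natAbs_neg, Int.natAbs_natCast]
      have hΔ : ∀ p : ℕ, p.Prime → ((p : ℤ) ∣ (WN (-(n : ℤ))).Δ ↔ p ∣ 17 ∨ p ∣ n) := by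
        intro p hp
        rw [dvd_Δ (WN_Δ' h1) hp, Int.natAbs_neg, Int.natAbs_natCast]
      exact (vanish_nO hn _ c4 ha hΔ (by omega) h17 c6).2
    · obtain ⟨n, rfl⟩ : ∃ n : ℕ, m = (n : ℤ) := ⟨m.natAbs, by omega⟩
      have hn : Squarefree n := Int.squarefree_natCast.1 hs
      have h17 : jacobiSym n 17 ≠ 1 := fun h => hR (Or.inl ⟨hm, h⟩)
      have h1n : 1 < n := by
        by_contra h
        have : n = 1 := by omega
        rw [this] at h17
        exact h17 (by norm_num)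
      have c4 : (WN (n : ℤ)).c₄ = 273 * (n : ℤ) ^ 2 := c4_WN h1
      have c6 : (WN (n : ℤ)).c₆ = 4455 * (n : ℤ) ^ 3 := c6_WN h1
      have ha : ∀ p : ℕ, p.Prime → ap (WN (n : ℤ)) p = ap E17 p * jacobiSym p n := by
        intro p hp
        rw [ap_WN h1 p hp, Int.natAbs_natCast]
      have hΔ : ∀ p : ℕ, p.Prime → ((p : ℤ) ∣ (WN (n : ℤ)).Δ ↔ p ∣ 17 ∨ p ∣ n) := by
        intro p hp
        rw [dvd_Δ (WN_Δ' h1) hp, Int.natAbs_natCast]
      exact (vanish_pO hn _ c4 ha hΔ (by omega) h1n h17 c6).2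
  · rw [if_neg h1]
    rcases lt_or_gt_of_ne h0 with hm | hm
    · obtain ⟨k, rfl⟩ : ∃ k : ℕ, m = -(k : ℤ) := ⟨m.natAbs, by omega⟩
      have hk : Squarefree k :=
        Int.squarefree_natCast.1 fun x hx => hs x ((dvd_neg).2 hx)
      have hE : Ev (4 * k) := ⟨k, rfl, hk, by omega⟩
      have e : (4 * k) / 4 = k := by omega
      have ha := ap_En hE
      rw [e] at ha
      have hnz : ((4 * k : ℕ) : ℤ) = 4 * (k : ℤ) := by push_cast; rfl
      have c4 : (Em (-(k : ℤ))).c₄ = 273 * ((4 * k : ℕ) : ℤ) ^ 2 := by rw [c4_Em, hnz]; ring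
      have c6 : (Em (-(k : ℤ))).c₆ = -(4455 * ((4 * k : ℕ) : ℤ) ^ 3) := by rw [c6_Em, hnz]; ring
      have hΔ : ∀ p : ℕ, p.Prime → ((p : ℤ) ∣ (Em (-(k : ℤ))).Δ ↔ p ∣ 17 ∨ p ∣ 4 * k) := by
        intro p hp
        rw [dvd_Δ (Em_Δ' _) hp]
        have e : (4 * -(k : ℤ)).natAbs = 4 * k := by omega
        rw [e]
      have h17 : jacobiSym k 17 = 1 := by
        by_contra h
        exact hR (Or.inr ⟨hm, by rw [jneg]; exact h⟩)
      exact (vanish_nE hE _ c4 c6 ha hΔ (by rw [e]; exact h17)).2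
    · obtain ⟨k, rfl⟩ : ∃ k : ℕ, m = (k : ℤ) := ⟨m.natAbs, by omega⟩
      have hk : Squarefree k := Int.squarefree_natCast.1 hs
      have hE : Pool.Agent.N974.Gen.ChP.Ev (4 * k) := ⟨k, rfl, hk, by omega⟩
      have e : (4 * k) / 4 = k := by omega
      have ha := ap_Ep hE
      rw [e] at ha
      have hnz : ((4 * k : ℕ) : ℤ) = 4 * (k : ℤ) := by push_cast; rfl
      have c4 : (Em (k : ℤ)).c₄ = 273 * ((4 * k : ℕ) : ℤ) ^ 2 := by rw [c4_Em, hnz]; ring
      have c6 : (Em (k : ℤ)).c₆ = 4455 * ((4 * k : ℕ) : ℤ) ^ 3 := by rw [c6_Em, hnz]; ring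
      have hΔ : ∀ p : ℕ, p.Prime → ((p : ℤ) ∣ (Em (k : ℤ)).Δ ↔ p ∣ 17 ∨ p ∣ 4 * k) := by
        intro p hp
        rw [dvd_Δ (Em_Δ' _) hp]
        have e : (4 * (k : ℤ)).natAbs = 4 * k := by omega
        rw [e]
      have h17 : jacobiSym k 17 ≠ 1 := fun h => hR (Or.inl ⟨hm, h⟩)
      exact (vanish_pE hE _ c4 c6 ha hΔ (by rw [e]; exact h17)).2

/-- **the L-functions**: existence, uniqueness, the parity of the value -/
theorem main {m : ℤ} (hs : Squarefree m) : ∃ F : ℂ → ℂ, IsLt m F ∧ (∀ G, IsLt m G → G = F) ∧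
    (¬ Rt17 m → F 1 = 0) ∧ (Sg m → F 1 ≠ 0) := by
  obtain ⟨h1, F, y, hF, hy, hv⟩ := vl_all hs
  refine ⟨F, (isL_iff hs F).1 hF, fun G hG => ((isL_iff hs G).2 hG).unique hF, fun hR => ?_,
    fun hS h0 => ?_⟩
  · obtain ⟨G, hG, hG1⟩ := van_all hs hR
    rw [← hG.unique hF]
    exact hG1
  · have hyo := hy.2 hS
    have hy0 : y ≠ 0 := by
      rintro rfl
      exact absurd hyo (by decide)
    rw [h0, zero_mul] at hv
    have h2 : (y : ℂ) ^ 2 ≠ 0 := pow_ne_zero 2 (by exact_mod_cast hy0)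
    have h3 : ((Omega (EE m) : ℝ) : ℂ) ≠ 0 := by exact_mod_cast h1.ne'
    have h4 : ((4 ^ (Kd m).primeFactors.card * t17 (Kd m) : ℕ) : ℂ) ≠ 0 := by
      have : t17 (Kd m) ≠ 0 := by
        unfold t17
        split_ifs <;> norm_num
      exact_mod_cast mul_ne_zero (pow_ne_zero _ (by norm_num)) this
    exact mul_ne_zero h2 (mul_ne_zero h3 h4) hv.symm

end Pool.Agent.N809.P17.Tw
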